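import Mathlib

set_option autoImplicit false
set_option maxSynthPendingDepth 3

namespace Pool.Agent.Results.MP_91c91a_lc.Order
open Finset

/-- the word is accepted from the state `p` by the transition relation `δ` with final states `F` -/
def Acc {Q S : Type} (δ : Finset (Q × S × Q)) (F : Set Q) : Q → List S → Prop
  | p, [] => p ∈ F
  | p, a :: w => ∃ r, (p, a, r) ∈ δ ∧ Acc δ F r w

/-- `L` is recognised by an NFA (one start state, no empty moves) with exactly `t` transitions -/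
def HasNFA {S : Type} (L : Set (List S)) (t : ℕ) : Prop :=
  ∃ (Q : Type) (_ : Finite Q) (q0 : Q) (F : Set Q) (δ : Finset (Q × S × Q)),
    δ.card = t ∧ ∀ w, w ∈ L ↔ Acc δ F q0 w

/-- transition complexity -/
noncomputable def tc {S : Type} (L : Set (List S)) : ℕ := sInf {t | HasNFA L t}

/-- worst case transition complexity of inverse morphism, source alphabet of size `k` -/
noncomputable def g (k m : ℕ) : ℕ :=
  sSup {x | ∃ (S : Type) (_ : Finite S) (h : Fin k → List S) (L : Set (List S)),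
    (∃ t, HasNFA L t) ∧ tc L = m ∧ x = tc {w : List (Fin k) | w.flatMap h ∈ L}}

lemma tc_has {S : Type} {L : Set (List S)} (h : ∃ t, HasNFA L t) : HasNFA L (tc L) :=
  Nat.sInf_mem h

lemma tc_le {S : Type} {L : Set (List S)} {t : ℕ} (h : HasNFA L t) : tc L ≤ t := Nat.sInf_le h

lemma trim {S : Type} {L : Set (List S)} {t T : ℕ} (h : HasNFA L t) (ht : t ≤ T) :
    ∃ (q0 : Fin (T + 1)) (F : Set (Fin (T + 1))) (δ : Finset (Fin (T + 1) × S × Fin (T + 1))),
      δ.card ≤ T ∧ ∀ w, w ∈ L ↔ Acc δ F q0 w := by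
  classical
  obtain ⟨Q, _, q0, F, δ, hc, hL⟩ := h
  let U : Finset Q := insert q0 (δ.image fun e => e.2.2)
  have hU : U.card ≤ (univ : Finset (Fin (T + 1))).card := by
    have h1 := card_insert_le q0 (δ.image fun e => e.2.2)
    have h2 := card_image_le (s := δ) (f := fun e => e.2.2)
    simp only [card_univ, Fintype.card_fin]
    simp only [U]
    omega
  obtain ⟨φ0⟩ : Nonempty (U ↪ Fin (T + 1)) :=
    Function.Embedding.nonempty_of_card_le (by simpa using hU)
  let φ : Q → Fin (T + 1) := fun q => if h : q ∈ U then φ0 ⟨q, h⟩ else 0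
  have inj : ∀ p ∈ U, ∀ q ∈ U, φ p = φ q → p = q := fun p hp q hq e => by
    simp only [φ, dif_pos hp, dif_pos hq] at e
    exact congrArg Subtype.val (φ0.injective e)
  refine ⟨φ q0, {x | ∃ q ∈ U, q ∈ F ∧ φ q = x},
    (δ.filter fun e => e.1 ∈ U).image fun e => (φ e.1, e.2.1, φ e.2.2),
    card_image_le.trans ((card_filter_le _ _).trans (hc.le.trans ht)), fun w => ?_⟩
  rw [hL]
  have : q0 ∈ U := mem_insert_self _ _
  generalize q0 = p at this ⊢
  induction w generalizing p with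
  | nil =>
    simp only [Acc, Set.mem_ofPred_eq]
    exact ⟨fun h => ⟨p, this, h, rfl⟩, fun ⟨q, h1, h2, h3⟩ => inj q h1 p this h3 ▸ h2⟩
  | cons a w ih =>
    simp only [Acc]
    constructor
    · rintro ⟨r, h1, h2⟩
      have hr : r ∈ U := mem_insert_of_mem (mem_image.mpr ⟨_, h1, rfl⟩)
      exact ⟨φ r, mem_image.mpr ⟨(p, a, r), mem_filter.mpr ⟨h1, this⟩, rfl⟩, (ih r hr).mp h2⟩
    · rintro ⟨x, h1, h2⟩
      obtain ⟨⟨p', a', r⟩, h3, h4⟩ := mem_image.mp h1
      simp only [Prod.mk.injEq] at h4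
      obtain ⟨e1, rfl, rfl⟩ := h4
      rw [mem_filter] at h3
      have hr : r ∈ U := mem_insert_of_mem (mem_image.mpr ⟨_, h3.1, rfl⟩)
      obtain rfl := inj p' h3.2 p this e1
      exact ⟨r, h3.1, (ih r hr).mpr h2⟩

lemma acc_append {Q S : Type} (δ : Finset (Q × S × Q)) (F : Set Q) (u w : List S) (p : Q) :
    Acc δ F p (u ++ w) ↔ ∃ r, Acc δ {r} p u ∧ Acc δ F r w := by
  induction u generalizing p with
  | nil => simp [Acc]
  | cons a u ih =>
    simp only [List.cons_append, Acc, ih]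
    constructor
    · rintro ⟨r, h1, s, h2, h3⟩
      exact ⟨s, ⟨r, h1, h2⟩, h3⟩
    · rintro ⟨s, ⟨r, h1, h2⟩, h3⟩
      exact ⟨r, h1, s, h2, h3⟩

/-- two letters at a time, through subsets of blocks -/
lemma compress {k N : ℕ} (r b : ℕ) (hr : 0 < r) (hb : N / r ≤ b) (q0 : Fin (N + 1))
    (F : Set (Fin (N + 1))) (D : Fin (N + 1) → Fin k → Fin (N + 1) → Prop)
    (A : Fin (N + 1) → List (Fin k) → Prop) (A0 : ∀ p, A p [] ↔ p ∈ F)
    (A1 : ∀ p a w, A p (a :: w) ↔ ∃ q, D p a q ∧ A q w) :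
    ∃ t, t ≤ (N + 1) * k * (k * (b + 1)) + k * (b + 1) * 2 ^ r * r + (N + 1) * k ∧
      HasNFA {w | A q0 w} t := by
  classical
  let M := Fin k × Fin (b + 1) × Finset (Fin r)
  let Q := Fin (N + 1) ⊕ Option M
  let sel : Fin (N + 1) → Fin k → Fin k → Fin (b + 1) → Finset (Fin r) := fun p a c B =>
    univ.filter fun j => ∃ q : Fin (N + 1), q.val = B.val * r + j.val ∧ ∃ s, D p a s ∧ D s c q
  let δ1 : Finset (Q × Fin k × Q) :=
    (univ : Finset ((Fin (N + 1) × Fin k) × (Fin k × Fin (b + 1)))).image fun e =>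
      (Sum.inl e.1.1, e.1.2, Sum.inr (some (e.2.1, e.2.2, sel e.1.1 e.1.2 e.2.1 e.2.2)))
  let δ2 : Finset (Q × Fin k × Q) :=
    ((univ : Finset (M × Fin r)).filter fun e => e.2 ∈ e.1.2.2 ∧
      e.1.2.1.val * r + e.2.val < N + 1).image fun e =>
      (Sum.inr (some e.1), e.1.1, Sum.inl (Fin.ofNat (N + 1) (e.1.2.1.val * r + e.2.val)))
  let δ3 : Finset (Q × Fin k × Q) :=
    ((univ : Finset (Fin (N + 1) × Fin k)).filter fun e => ∃ q ∈ F, D e.1 e.2 q).image fun e =>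
      (Sum.inl e.1, e.2, Sum.inr none)
  let F' : Set Q := {x | x = Sum.inr none ∨ ∃ q ∈ F, x = Sum.inl q}
  refine ⟨(δ1 ∪ δ2 ∪ δ3).card, ?_, Q, inferInstance, Sum.inl q0, F', _, rfl, fun w => ?_⟩
  · have h1 : δ1.card ≤ (N + 1) * k * (k * (b + 1)) := card_image_le.trans (by simp)
    have h2 : δ2.card ≤ k * (b + 1) * 2 ^ r * r :=
      card_image_le.trans ((card_filter_le _ _).trans (by simp [M, mul_assoc]))
    have h3 : δ3.card ≤ (N + 1) * k := card_image_le.trans ((card_filter_le _ _).trans (by simp))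
    exact (card_union_le _ _).trans (add_le_add ((card_union_le _ _).trans (add_le_add h1 h2)) h3)
  have t1 : ∀ p a x, (Sum.inl p, a, x) ∈ δ1 ∪ δ2 ∪ δ3 ↔
      (∃ c B, x = Sum.inr (some (c, B, sel p a c B))) ∨
        (x = Sum.inr none ∧ ∃ q ∈ F, D p a q) := by
    intro p a x
    simp only [δ1, δ2, δ3, mem_union, mem_image, mem_univ, true_and, mem_filter, Prod.mk.injEq,
      Prod.exists, Q]
    constructor
    · rintro ((⟨p', a', c, B, e1, rfl, rfl⟩ | ⟨_, _, _, e, _⟩) | ⟨p', a', h, e1, rfl, rfl⟩)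
      · obtain rfl := Sum.inl.inj e1
        exact Or.inl ⟨c, B, rfl⟩
      · cases e
      · obtain rfl := Sum.inl.inj e1
        exact Or.inr ⟨rfl, h⟩
    · rintro (⟨c, B, rfl⟩ | ⟨rfl, h⟩)
      · exact Or.inl (Or.inl ⟨p, a, c, B, rfl, rfl, rfl⟩)
      · exact Or.inr ⟨p, a, h, rfl, rfl, rfl⟩
  have t2 : ∀ (o : Option M) a x, (Sum.inr o, a, x) ∈ δ1 ∪ δ2 ∪ δ3 ↔
      ∃ (B : Fin (b + 1)) (s : Finset (Fin r)) (j : Fin r) (q : Fin (N + 1)), o = some (a, B, s) ∧
        j ∈ s ∧ q.val = B.val * r + j.val ∧ x = Sum.inl q := by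
    intro o a x
    simp only [δ1, δ2, δ3, mem_union, mem_image, mem_univ, true_and, mem_filter, Prod.mk.injEq,
      Prod.exists, Q]
    constructor
    · rintro ((⟨_, _, _, _, e, _⟩ | ⟨⟨c, B, s⟩, j, ⟨h1, h2⟩, e1, rfl, rfl⟩) | ⟨_, _, _, e, _⟩)
      · cases e
      · exact ⟨B, s, j, _, (Sum.inr.inj e1).symm, h1, by simpa using h2, rfl⟩
      · cases e
    · rintro ⟨B, s, j, q, rfl, h1, h2, rfl⟩
      refine Or.inl (Or.inr ⟨(a, B, s), j, ⟨h1, h2 ▸ q.isLt⟩, rfl, rfl, ?_⟩)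
      simp [← h2]
  simp only [Set.mem_ofPred_eq]
  generalize q0 = p
  induction w using List.twoStepInduction generalizing p with
  | nil => simp [Acc, F', A0, Q]
  | singleton a =>
    simp only [Acc, A1, A0, t1, F', Set.mem_ofPred_eq]
    constructor
    · rintro ⟨q, h1, h2⟩
      exact ⟨_, Or.inr ⟨rfl, q, h2, h1⟩, Or.inl rfl⟩
    · rintro ⟨x, ⟨c, B, rfl⟩ | ⟨-, q, h1, h2⟩, h⟩
      · rcases h with h | ⟨_, _, h⟩ <;> cases h
      · exact ⟨q, h2, h1⟩
  | cons_cons a c w ih _ =>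
    simp only [Acc, A1, t1]
    constructor
    · rintro ⟨s, h1, q, h2, h3⟩
      have hB : q.val / r < b + 1 :=
        Nat.lt_succ_of_le ((Nat.div_le_div_right (Nat.le_of_lt_succ q.isLt)).trans hb)
      have hq : q.val = q.val / r * r + q.val % r := (Nat.div_add_mod' _ _).symm
      refine ⟨_, Or.inl ⟨c, ⟨_, hB⟩, rfl⟩, Sum.inl q, (t2 _ _ _).mpr
        ⟨_, _, ⟨q.val % r, Nat.mod_lt _ hr⟩, q, rfl, ?_, hq, rfl⟩, (ih q).mp h3⟩
      simp only [sel, mem_filter, mem_univ, true_and]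
      exact ⟨q, hq, s, h1, h2⟩
    · rintro ⟨x, ⟨c', B, rfl⟩ | ⟨rfl, -⟩, y, h1, h2⟩
      · obtain ⟨B', s, j, q, e, h3, h4, rfl⟩ := (t2 _ _ _).mp h1
        simp only [Option.some.injEq, M, Prod.mk.injEq] at e
        obtain ⟨rfl, rfl, rfl⟩ := e
        simp only [sel, mem_filter, mem_univ, true_and] at h3
        obtain ⟨q', e, s, h5, h6⟩ := h3
        obtain rfl : q' = q := Fin.ext (e.trans h4.symm)
        exact ⟨s, h5, q', h6, (ih q').mpr h2⟩
      · obtain ⟨_, _, _, _, e, _⟩ := (t2 _ _ _).mp h1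
        cases e

lemma upper {k m : ℕ} {S : Type} (h : Fin k → List S) (L : Set (List S)) (hL : HasNFA L m) :
    ∃ t, t * (Nat.log 4 (m + 1) + 1) ≤ 2 * (k ^ 2 + 5 * k) * (m + 1) ^ 2 ∧
      HasNFA {w : List (Fin k) | w.flatMap h ∈ L} t := by
  obtain ⟨q0, F, δ, -, hδ⟩ := trim hL le_rfl
  have a1 : 4 ^ Nat.log 4 (m + 1) ≤ m + 1 := Nat.pow_log_le_self 4 (by omega)
  generalize Nat.log 4 (m + 1) = l at a1
  obtain ⟨t, h1, h2⟩ := compress (l + 1) (m / (l + 1)) (by omega) le_rfl q0 F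
    (fun p a q => Acc δ {q} p (h a)) (fun p w => Acc δ F p (w.flatMap h))
    (fun p => by simp [Acc]) (fun p a w => by simp only [List.flatMap_cons, acc_append])
  refine ⟨t, ?_, by simpa only [hδ] using h2⟩
  have a2 : l + 1 ≤ 2 ^ l := Nat.lt_two_pow_self
  have a3 : 2 ^ l * 2 ^ l ≤ m + 1 := by rw [← mul_pow]; exact a1
  have a4 : 2 ^ (l + 1) * (l + 1) ≤ 2 * (m + 1) := by
    calc _ ≤ 2 ^ (l + 1) * 2 ^ l := Nat.mul_le_mul_left _ a2
      _ = 2 * (2 ^ l * 2 ^ l) := by ring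
      _ ≤ _ := by omega
  have a5 : (m / (l + 1) + 1) * (l + 1) ≤ 2 * (m + 1) := by
    have := Nat.div_mul_le_self m (l + 1)
    have b1 : 1 ≤ 2 ^ l := Nat.one_le_two_pow
    have b2 : 2 ^ l ≤ 2 ^ l * 2 ^ l := Nat.le_mul_of_pos_right _ b1
    rw [add_mul]
    omega
  generalize m / (l + 1) = b at h1 a5
  have a6 : t ≤ (k ^ 2 + 5 * k) * (m + 1) * (b + 1) := by
    have c1 : k * (b + 1) * (2 ^ (l + 1) * (l + 1)) ≤ k * (b + 1) * (2 * (m + 1)) :=
      Nat.mul_le_mul_left _ a4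
    have c2 : (m + 1) * k ≤ (m + 1) * k * (b + 1) := Nat.le_mul_of_pos_right _ (by omega)
    rw [mul_assoc (k * (b + 1))] at h1
    nlinarith [Nat.zero_le ((m + 1) * k * (b + 1))]
  calc t * (l + 1) ≤ (k ^ 2 + 5 * k) * (m + 1) * (b + 1) * (l + 1) := Nat.mul_le_mul_right _ a6
    _ = (k ^ 2 + 5 * k) * (m + 1) * ((b + 1) * (l + 1)) := by ring
    _ ≤ (k ^ 2 + 5 * k) * (m + 1) * (2 * (m + 1)) := Nat.mul_le_mul_left _ a5
    _ = _ := by ring

/-- one more letter, one more transition -/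
lemma pad {S : Type} (L : Set (List S)) (hL : ∃ t, HasNFA L t) (hne : L.Nonempty) :
    ∃ L' : Set (List (Option S)), (∃ t, HasNFA L' t) ∧ tc L' = tc L + 1 ∧
      ∀ u : List S, u.map some ∈ L' ↔ u ∈ L := by
  classical
  obtain ⟨Q, fQ, q0, F, δ, hc, hδ⟩ := tc_has hL
  let δ' : Finset (Q × Option S × Q) :=
    insert (q0, none, q0) (δ.image fun e => (e.1, some e.2.1, e.2.2))
  have key : ∀ {Q : Type} (F : Set Q) (d : Finset (Q × S × Q)) (d' : Finset (Q × Option S × Q)),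
      (∀ p a q, (p, some a, q) ∈ d' ↔ (p, a, q) ∈ d) →
      ∀ (u : List S) (p : Q), Acc d' F p (u.map some) ↔ Acc d F p u := by
    intro Q F d d' h u
    induction u with
    | nil => intro p; rfl
    | cons a u ih => intro p; simp only [List.map_cons, Acc, h, ih]
  have h1 : ∀ u : List S, Acc δ' F q0 (u.map some) ↔ u ∈ L := fun u => by
    rw [hδ]
    exact key F δ δ' (fun p a q => by simp [δ']) u q0
  have h2 : HasNFA {w | Acc δ' F q0 w} δ'.card := ⟨Q, fQ, q0, F, δ', rfl, fun w => Iff.rfl⟩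
  refine ⟨{w | Acc δ' F q0 w}, ⟨_, h2⟩, le_antisymm ((tc_le h2).trans ?_) ?_, h1⟩
  · exact (card_insert_le _ _).trans (Nat.succ_le_succ (card_image_le.trans hc.le))
  · obtain ⟨Q2, fQ2, p0, F2, d', hc2, hd⟩ := tc_has ⟨_, h2⟩
    let f : Q2 × S × Q2 → Q2 × Option S × Q2 := fun e => (e.1, some e.2.1, e.2.2)
    have finj : Function.Injective f := by
      rintro ⟨a, b, c⟩ ⟨a', b', c'⟩ e
      simpa [f] using e
    let d := d'.preimage f finj.injOn
    have h3 : HasNFA L d.card := ⟨Q2, fQ2, p0, F2, d, rfl, fun u => by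
      rw [← h1, ← key F2 d d' (fun p a q => by simp [d, f])]
      exact hd _⟩
    obtain ⟨u, hu⟩ := hne
    obtain ⟨r, hr, -⟩ := (hd (none :: u.map some)).mp ⟨q0, mem_insert_self _ _, (h1 u).mpr hu⟩
    have h4 : (insert (p0, none, r) (d.image f)).card ≤ d'.card :=
      card_le_card (insert_subset hr fun e he => by
        obtain ⟨x, hx, rfl⟩ := mem_image.mp he
        exact mem_preimage.mp hx)
    rw [card_insert_of_notMem (by simp [f]), card_image_of_injective _ finj] at h4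
    have := tc_le h3
    omega

lemma pads {S : Type} [Finite S] (L : Set (List S)) (hL : ∃ t, HasNFA L t) (hne : L.Nonempty)
    (s : ℕ) : ∃ (S' : Type) (_ : Finite S') (ι : S → S') (L' : Set (List S')),
      (∃ t, HasNFA L' t) ∧ tc L' = tc L + s ∧ ∀ u : List S, u.map ι ∈ L' ↔ u ∈ L := by
  induction s with
  | zero => exact ⟨S, inferInstance, id, L, hL, rfl, fun u => by simp⟩
  | succ s ih =>
    obtain ⟨S', _, ι, L', h1, h2, h3⟩ := ih
    obtain ⟨u, hu⟩ := hne
    obtain ⟨L2, k1, k2, k3⟩ := pad L' h1 ⟨_, (h3 u).mpr hu⟩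
    exact ⟨Option S', inferInstance, some ∘ ι, L2, k1, by omega, fun u => by
      rw [← List.map_map, k3, h3]⟩

section lower
variable (n : ℕ)

abbrev St := ZMod (n + 1) ⊕ ZMod (n + 1)

def sh (i j : ZMod (n + 1)) : St n → St n
  | Sum.inl x => Sum.inl (x + i)
  | Sum.inr y => Sum.inr (y + j)

def dl : Finset (St n × Fin 3 × St n) :=
  insert (Sum.inl 0, 2, Sum.inr 0) ((univ : Finset (St n × Fin 3)).image fun e =>
    (e.1, e.2, if e.2 = 0 then sh n 1 0 e.1 else if e.2 = 1 then sh n 0 1 e.1 else e.1))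

lemma dl_card : (dl n).card ≤ 6 * n + 7 :=
  (card_insert_le _ _).trans (Nat.succ_le_succ (card_image_le.trans (by simp; omega)))

lemma sh_sh (i j i' j' : ZMod (n + 1)) (p : St n) :
    sh n i' j' (sh n i j p) = sh n (i + i') (j + j') p := by
  cases p <;> simp [sh, add_assoc]

lemma sh_zero (p : St n) : sh n 0 0 p = p := by cases p <;> simp [sh]

variable (F : Set (St n))

lemma a0 (p : St n) (w : List (Fin 3)) :
    Acc (dl n) F p (0 :: w) ↔ Acc (dl n) F (sh n 1 0 p) w := by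
  simp [Acc, dl]

lemma a1 (p : St n) (w : List (Fin 3)) :
    Acc (dl n) F p (1 :: w) ↔ Acc (dl n) F (sh n 0 1 p) w := by
  simp [Acc, dl]

lemma a2 (p : St n) (w : List (Fin 3)) : Acc (dl n) F p (2 :: w) ↔
    Acc (dl n) F p w ∨ (p = Sum.inl 0 ∧ Acc (dl n) F (Sum.inr 0) w) := by
  simp only [Acc, dl, mem_insert, Prod.mk.injEq, mem_image, mem_univ, true_and, Prod.exists]
  constructor
  · rintro ⟨r, ⟨h1, rfl⟩ | ⟨a, b, rfl, rfl, rfl⟩, h⟩
    · exact Or.inr ⟨h1, h⟩
    · exact Or.inl (by simpa using h)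
  · rintro (h | ⟨h1, h⟩)
    · exact ⟨p, Or.inr ⟨p, 2, rfl, rfl, by simp⟩, h⟩
    · exact ⟨_, Or.inl ⟨h1, rfl⟩, h⟩

lemma r0 (i : ℕ) (p : St n) (w : List (Fin 3)) :
    Acc (dl n) F p (List.replicate i 0 ++ w) ↔ Acc (dl n) F (sh n i 0 p) w := by
  induction i generalizing p with
  | zero => simp [sh_zero]
  | succ i ih => rw [List.replicate_succ, List.cons_append, a0, ih, sh_sh]; simp [add_comm]

lemma r1 (i : ℕ) (p : St n) (w : List (Fin 3)) :
    Acc (dl n) F p (List.replicate i 1 ++ w) ↔ Acc (dl n) F (sh n 0 i p) w := by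
  induction i generalizing p with
  | zero => simp [sh_zero]
  | succ i ih => rw [List.replicate_succ, List.cons_append, a1, ih, sh_sh]; simp [add_comm]

def uw (e : ZMod (n + 1) × ZMod (n + 1)) : List (Fin 3) :=
  List.replicate (-e.1).val 0 ++ (List.replicate (-e.2).val 1 ++
    2 :: (List.replicate e.1.val 0 ++ List.replicate e.2.val 1))

lemma au (e : ZMod (n + 1) × ZMod (n + 1)) (p : St n) (w : List (Fin 3)) :
    Acc (dl n) F p (uw n e ++ w) ↔
      Acc (dl n) F p w ∨ (p = Sum.inl e.1 ∧ Acc (dl n) F (Sum.inr e.2) w) := by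
  simp only [uw, List.append_assoc, List.cons_append, r0, r1, a2, sh_sh, ZMod.natCast_val,
    ZMod.cast_id', id]
  cases p <;> simp [sh, add_neg_eq_zero]

lemma al (l : List (ZMod (n + 1) × ZMod (n + 1))) (p : St n) (w : List (Fin 3)) :
    Acc (dl n) F p (l.flatMap (uw n) ++ w) ↔
      Acc (dl n) F p w ∨ ∃ e ∈ l, p = Sum.inl e.1 ∧ Acc (dl n) F (Sum.inr e.2) w := by
  induction l generalizing p with
  | nil => simp
  | cons e l ih =>
    rw [List.flatMap_cons, List.append_assoc, au, ih, ih]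
    simp only [List.mem_cons, reduceCtorEq, false_and, and_false, exists_false, or_false,
      exists_eq_or_imp]
    rw [or_assoc, or_comm (a := ∃ e ∈ l, _)]

noncomputable def hE (k : ℕ) (E : Finset (ZMod (n + 1) × ZMod (n + 1))) (a : Fin (k + 2)) :
    List (Fin 3) := if a = 0 then [0, 1] else E.toList.flatMap (uw n)

lemma rE (k : ℕ) (E : Finset (ZMod (n + 1) × ZMod (n + 1))) (i : ℕ) (p : St n)
    (w : List (Fin 3)) :
    Acc (dl n) F p ((List.replicate i 0).flatMap (hE n k E) ++ w) ↔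
      Acc (dl n) F (sh n i i p) w := by
  induction i generalizing p with
  | zero => simp [sh_zero]
  | succ i ih =>
    rw [List.replicate_succ, List.flatMap_cons, List.append_assoc, hE, if_pos rfl]
    simp only [List.cons_append, List.nil_append, a0, a1, ih, sh_sh]
    simp [add_comm]

lemma dist (k : ℕ) (E : Finset (ZMod (n + 1) × ZMod (n + 1))) (e : ZMod (n + 1) × ZMod (n + 1)) :
    Acc (dl n) {Sum.inr 0} (Sum.inl 0) ((List.replicate e.1.val (0 : Fin (k + 2)) ++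
      1 :: List.replicate (-e.2).val 0).flatMap (hE n k E)) ↔ e ∈ E := by
  rw [List.flatMap_append, List.flatMap_cons, rE, hE, if_neg (by simp), al,
    ← List.append_nil (List.flatMap _ (List.replicate _ _))]
  simp only [rE, Acc, sh, ZMod.natCast_val, ZMod.cast_id', id, zero_add, Set.mem_singleton_iff,
    reduceCtorEq, false_or, mem_toList, Sum.inl.injEq, Sum.inr.injEq, add_neg_eq_zero]
  constructor
  · rintro ⟨e', h, h1, h2⟩
    rwa [show e = e' from Prod.ext h1 h2.symm]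
  · exact fun h => ⟨e, h, rfl, rfl⟩

end lower

lemma count {k T : ℕ} {I : Type} [Fintype I] (L : I → Set (List (Fin k)))
    (hinj : Function.Injective L) (hL : ∀ i, ∃ t ≤ T, HasNFA (L i) t) :
    Fintype.card I ≤ (T + 1) * 2 ^ (T + 1) * ((T + 1) * (k * (T + 1)) + 1) ^ T := by
  classical
  have h : ∀ i, ∃ (q0 : Fin (T + 1)) (F : Set (Fin (T + 1)))
      (δ : Finset (Fin (T + 1) × Fin k × Fin (T + 1))),
      δ.card ≤ T ∧ ∀ w, w ∈ L i ↔ Acc δ F q0 w := fun i => by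
    obtain ⟨t, h1, h2⟩ := hL i
    exact trim h2 h1
  choose q F δ h1 h2 using h
  have := Fintype.card_le_of_injective
    (fun i => ((q i, F i), fun j : Fin T => (δ i).toList[j.val]?)) fun i j e => by
      simp only [Prod.mk.injEq] at e
      obtain ⟨⟨e1, e2⟩, e3⟩ := e
      have e4 : (δ i).toList = (δ j).toList := by
        refine List.ext_getElem? fun x => ?_
        by_cases hx : x < T
        · exact congrFun e3 ⟨x, hx⟩
        · rw [List.getElem?_eq_none (by rw [length_toList]; have := h1 i; omega),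
            List.getElem?_eq_none (by rw [length_toList]; have := h1 j; omega)]
      have e5 : δ i = δ j := by rw [← toList_toFinset (δ i), e4, toList_toFinset]
      refine hinj (Set.ext fun w => ?_)
      rw [h2, h2, e1, e2, e5]
  simpa using this

lemma g_bdd (k m : ℕ) : ∀ x ∈ {x | ∃ (S : Type) (_ : Finite S) (h : Fin k → List S)
    (L : Set (List S)), (∃ t, HasNFA L t) ∧ tc L = m ∧
      x = tc {w : List (Fin k) | w.flatMap h ∈ L}},
    x * (Nat.log 4 (m + 1) + 1) ≤ 2 * (k ^ 2 + 5 * k) * (m + 1) ^ 2 := by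
  rintro x ⟨S, _, h, L, h1, rfl, rfl⟩
  obtain ⟨t, h2, h3⟩ := upper h L (tc_has h1)
  exact (Nat.mul_le_mul_right _ (tc_le h3)).trans h2

lemma g_up (k m : ℕ) : g k m * (Nat.log 4 (m + 1) + 1) ≤ 2 * (k ^ 2 + 5 * k) * (m + 1) ^ 2 := by
  rw [← Nat.le_div_iff_mul_le (by omega)]
  exact csSup_le' fun x hx => (Nat.le_div_iff_mul_le (by omega)).mpr (g_bdd k m x hx)

lemma g_low (k n m : ℕ) (h : 6 * n + 7 ≤ m) : 2 ^ ((n + 1) * (n + 1)) ≤ (g (k + 2) m + 1) *
    2 ^ (g (k + 2) m + 1) * ((g (k + 2) m + 1) * ((k + 2) * (g (k + 2) m + 1)) + 1) ^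
      g (k + 2) m := by
  let L : Set (List (Fin 3)) := {w | Acc (dl n) {Sum.inr 0} (Sum.inl 0) w}
  have h1 : HasNFA L (dl n).card := ⟨St n, inferInstance, _, _, _, rfl, fun w => Iff.rfl⟩
  have h2 : tc L ≤ m := (tc_le h1).trans ((dl_card n).trans h)
  obtain ⟨S, fS, ι, L', k1, k2, k3⟩ := pads L ⟨_, h1⟩
    ⟨[2], (a2 n _ _ _).mpr (Or.inr ⟨rfl, rfl⟩)⟩ (m - tc L)
  have k4 : tc L' = m := by omega
  have := count (k := k + 2) (T := g (k + 2) m) (fun E : Finset (ZMod (n + 1) × ZMod (n + 1)) =>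
    {w | w.flatMap (fun a => (hE n k E a).map ι) ∈ L'}) (fun E E' e => ?_) fun E => ?_
  · simpa using this
  · ext x
    rw [← dist n k E x, ← dist n k E' x]
    have := Set.ext_iff.mp e (List.replicate x.1.val 0 ++ 1 :: List.replicate (-x.2).val 0)
    simp only [Set.mem_ofPred_eq, ← List.map_flatMap, k3] at this
    exact this
  · obtain ⟨t, -, h3⟩ := upper (fun a => (hE n k E a).map ι) L' (tc_has k1)
    refine ⟨_, ?_, tc_has ⟨t, h3⟩⟩
    refine le_csSup ⟨2 * ((k + 2) ^ 2 + 5 * (k + 2)) * (m + 1) ^ 2, fun x hx => ?_⟩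
      ⟨S, fS, _, L', k1, k4, rfl⟩
    exact (Nat.le_mul_of_pos_right _ (by omega)).trans (g_bdd _ m x hx)

theorem result :
    (∀ k : ℕ, ∃ C : ℝ, ∀ m : ℕ, 2 ≤ m → (g k m : ℝ) ≤ C * (m ^ 2 / Real.log m)) ∧
    (∀ k : ℕ, 2 ≤ k → ∃ c : ℝ, 0 < c ∧ ∃ m0 : ℕ, ∀ m ≥ m0,
      c * (m ^ 2 / Real.log m) ≤ (g k m : ℝ)) := by
  refine ⟨fun k => ⟨8 * (k ^ 2 + 5 * k) * Real.log 4, fun m hm => ?_⟩, fun k hk => ?_⟩
  · have hm' : (2 : ℝ) ≤ m := by exact_mod_cast hm
    have hl : 0 < Real.log m := Real.log_pos (by linarith)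
    have h1 : (g k m : ℝ) * (Nat.log 4 (m + 1) + 1) ≤ 2 * (k ^ 2 + 5 * k) * (m + 1) ^ 2 := by
      exact_mod_cast g_up k m
    have h2 : (m : ℝ) ≤ 4 ^ (Nat.log 4 (m + 1) + 1) := by
      have := Nat.lt_pow_succ_log_self (b := 4) (by norm_num) (m + 1)
      exact_mod_cast (by omega : m ≤ 4 ^ (Nat.log 4 (m + 1) + 1))
    have h3 := Real.log_le_log (by linarith) h2
    rw [Real.log_pow] at h3
    push_cast at h3
    have h4 : 0 < Real.log 4 := Real.log_pos (by norm_num)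
    rw [← mul_div_assoc, le_div_iff₀ hl]
    have h5 : (0 : ℝ) ≤ k ^ 2 + 5 * k := by positivity
    have h6 : ((m : ℝ) + 1) ^ 2 ≤ 4 * m ^ 2 := by nlinarith
    calc (g k m : ℝ) * Real.log m ≤ g k m * ((Nat.log 4 (m + 1) + 1) * Real.log 4) :=
          mul_le_mul_of_nonneg_left h3 (by positivity)
      _ = g k m * (Nat.log 4 (m + 1) + 1) * Real.log 4 := by ring
      _ ≤ 2 * (k ^ 2 + 5 * k) * (4 * m ^ 2) * Real.log 4 :=
          mul_le_mul_of_nonneg_right (h1.trans (mul_le_mul_of_nonneg_left h6 (by positivity)))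
            h4.le
      _ = _ := by ring
  · obtain ⟨k, rfl⟩ : ∃ j, k = j + 2 := ⟨k - 2, by omega⟩
    have l2 : 0 < Real.log 2 := Real.log_pos (by norm_num)
    have l3 : Real.log 2 < 1 := by
      have := Real.log_two_lt_d9
      linarith
    refine ⟨Real.log 2 / 1152, by positivity, k + 13, fun m hm => ?_⟩
    have hm' : (13 : ℝ) ≤ m := by exact_mod_cast (by omega : 13 ≤ m)
    have hl : 1 ≤ Real.log m := by
      rw [Real.le_log_iff_exp_le (by linarith)]
      have := Real.exp_one_lt_d9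
      linarith
    have h0 := g_low k ((m - 7) / 6) m (by omega)
    have hn : m ≤ 12 * ((m - 7) / 6 + 1) := by omega
    have hn2 : 2 ≤ (m - 7) / 6 + 1 := by omega
    generalize (m - 7) / 6 + 1 = n at h0 hn hn2
    generalize g (k + 2) m = T at h0 ⊢
    rw [← mul_div_assoc, div_le_iff₀ (by linarith)]
    by_cases hT : m ^ 2 ≤ T
    · have : (m : ℝ) ^ 2 ≤ T := by exact_mod_cast hT
      nlinarith [sq_nonneg (m : ℝ)]
    have T1 : 1 ≤ T := by
      by_contra h
      obtain rfl : T = 0 := by omega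
      have : 2 ^ 2 ≤ 2 ^ (n * n) := Nat.pow_le_pow_right (by norm_num) (by nlinarith)
      simp at h0
      omega
    have b1 : (T + 1) * ((k + 2) * (T + 1)) + 1 ≤ m ^ 5 := by
      have c1 : (T + 1) * (T + 1) ≤ m ^ 2 * m ^ 2 := Nat.mul_le_mul (by omega) (by omega)
      have c2 : (k + 3) * (m ^ 2 * m ^ 2) ≤ m * (m ^ 2 * m ^ 2) :=
        Nat.mul_le_mul_right _ (by omega)
      nlinarith
    have b2 : 2 ^ (n * n) ≤ m ^ (8 * T) := by
      calc 2 ^ (n * n) ≤ _ := h0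
        _ ≤ 2 ^ T * 2 ^ (T + 1) * (m ^ 5) ^ T :=
            Nat.mul_le_mul (Nat.mul_le_mul_right _ Nat.lt_two_pow_self)
              (Nat.pow_le_pow_left b1 _)
        _ ≤ m ^ T * m ^ (T + T) * (m ^ 5) ^ T :=
            Nat.mul_le_mul_right _ (Nat.mul_le_mul (Nat.pow_le_pow_left (by omega) _)
              ((Nat.pow_le_pow_right (by norm_num) (by omega)).trans
                (Nat.pow_le_pow_left (by omega) _)))
        _ = _ := by ring
    have b3 : (2 : ℝ) ^ (n * n) ≤ (m : ℝ) ^ (8 * T) := by exact_mod_cast b2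
    have b4 := Real.log_le_log (by positivity) b3
    rw [Real.log_pow, Real.log_pow] at b4
    push_cast at b4
    have b5 : (m : ℝ) ≤ 12 * n := by exact_mod_cast hn
    have b6 : (m : ℝ) ^ 2 ≤ 144 * (n * n) := by nlinarith
    nlinarith

end Pool.Agent.Results.MP_91c91a_lc.Order
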